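import Mathlib

set_option autoImplicit false
set_option maxHeartbeats 400000

open Finset PowerSeries

namespace Pool.Agent.Results.MP_93f727_an.Fails

/-- the `q`-Pochhammer symbol -/
def poch {R : Type} [CommRing R] (u q : R) (n : ℕ) : R := ∏ j ∈ range n, (1 - u * q ^ j)

/-- the diagonal recurrence coefficient -/
def d {R : Type} [CommRing R] (a b c q : R) (n : ℕ) : R :=
  (a + b + c) * q ^ n + a * b * c * (q ^ (n - 1) * (1 - q ^ n) - q ^ (2 * n))

/-- the off-diagonal recurrence coefficient -/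
def f {R : Type} [CommRing R] (a b c q : R) (n : ℕ) : R :=
  (1 - a * b * q ^ n) * (1 - a * c * q ^ n) * (1 - b * c * q ^ n)

/-- continuous dual `q`-Hahn polynomials evaluated at `x` -/
def psi {R : Type} [CommRing R] (x a b c q : R) : ℕ → R
  | 0 => 1
  | 1 => 2 * x - d a b c q 0
  | n + 2 => (2 * x - d a b c q (n + 1)) * psi x a b c q (n + 1) -
      (1 - q ^ (n + 1)) * f a b c q n * psi x a b c q n

/-- Gaussian binomial coefficient -/
noncomputable def qb (q : ℝ) (n i : ℕ) : ℝ := poch q q n / (poch q q i * poch q q (n - i))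

/-- Askey-Wilson polynomial with fourth parameter the series variable -/
noncomputable def AW (x a b c q : ℝ) (n : ℕ) : ℝ⟦X⟧ := ∑ i ∈ range (n + 1),
  C (qb q n i * (-a) ^ (n - i) * q ^ (n - i).choose 2 * poch (b * c * q ^ i) q (n - i)) *
    poch (C (b * q ^ i) * X) (C q) (n - i) * poch (C (c * q ^ i) * X) (C q) (n - i) *
    (poch (C (a * b * c * q ^ (n + i - 1)) * X) (C q) (n - i))⁻¹ *
    psi (C x) (C b) (C c) X (C q) i

/-- the shifted generating function -/
noncomputable def G (x a b c q : ℝ) (n : ℕ) : ℝ⟦X⟧ :=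
  mk fun i => psi x a b c q (i + n) / poch q q i

/-- the product of the three Pochhammer symbols in the denominator -/
noncomputable def D (a b c q : ℝ) (n : ℕ) : ℝ⟦X⟧ :=
  poch (C a * X) (C q) n * poch (C b * X) (C q) n * poch (C c * X) (C q) n

theorem result : ∃ (n : ℕ) (x a b c q : ℝ), 1 ≤ n ∧ -1 < q ∧ q < 1 ∧ q ≠ 0 ∧
    G x a b c q n ≠ AW x a b c q n * (D a b c q n)⁻¹ * G x a b c q 0 := by
  refine ⟨1, 0, 1, 1, 1, 1 / 2, le_rfl, by norm_num, by norm_num, by norm_num, fun h => ?_⟩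
  have a : AW 0 1 1 1 (1 / 2) 1 = C (-2) := by
    simp [AW, sum_range_succ, poch, psi, d, qb]
    norm_num
    rw [map_ofNat]
  have e : D 1 1 1 (1 / 2) 1 = 1 - C 3 * X + (C 3 - X) * X * X := by
    simp only [D, poch, prod_range_one, map_one, map_ofNat]; ring
  have : D 1 1 1 (1 / 2) 1 * G 0 1 1 1 (1 / 2) 1 = C (-2) * G 0 1 1 1 (1 / 2) 0 := by
    rw [h, a, mul_comm (C (-2)), mul_assoc, ← mul_assoc, PowerSeries.mul_inv_cancel _ (by rw [e]; simp),
      one_mul]
  have := congrArg (coeff 1) this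
  rw [e, coeff_C_mul, show ∀ g : ℝ⟦X⟧, (1 - C 3 * X + (C 3 - X) * X * X) * g =
    g - C 3 * (g * X) + (C 3 - X) * g * X * X from fun g => by ring, map_add, map_sub, coeff_C_mul,
    coeff_succ_mul_X, coeff_succ_mul_X, coeff_zero_mul_X] at this
  simp [G, psi, d, f, poch] at this
  norm_num at this

end Pool.Agent.Results.MP_93f727_an.Fails
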